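import Pool.Agent.helper31.GPR.Spec

/-! Row gpr:PLR (MP_7a3aac_co): the dimension of the space of polynomial functions of degree at most `c` -/

set_option autoImplicit false

namespace Pool.Agent.GPR

open Pool.Agent.helper25.QST

theorem PLR_card (d c : ℕ) :
    (Finset.univ.filter (fun A : Finset (Fin d) => A.card ≤ c)).card ≤ KK d c := by
  unfold KK
  rw [Finset.card_eq_sum_card_fiberwise (f := Finset.card) (t := Finset.range (c + 1))]
  · refine Finset.sum_le_sum fun i _ => ?_
    have h : (Finset.univ.filter (fun A : Finset (Fin d) => A.card ≤ c)).filter (fun A => A.card = i) ⊆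
        Finset.powersetCard i (Finset.univ : Finset (Fin d)) := by
      intro A hA
      rw [Finset.mem_powersetCard]
      exact ⟨Finset.subset_univ A, (Finset.mem_filter.1 hA).2⟩
    refine (Finset.card_le_card h).trans ?_
    rw [Finset.card_powersetCard, Finset.card_univ, Fintype.card_fin]
  · intro A hA
    have h1 := (Finset.mem_filter.1 (Finset.mem_coe.1 hA)).2
    exact Finset.mem_coe.2 (Finset.mem_range.2 (Nat.lt_succ_of_le h1))

theorem PLR : PLR_stmt := by
  classical
  intro d c
  have h : {f | ∃ A : Finset (Fin d), A.card ≤ c ∧ f = mon d A} =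
      (((Finset.univ.filter (fun A : Finset (Fin d) => A.card ≤ c)).image (mon d) :
        Finset ((Fin d → ZMod 2) → ZMod 2)) : Set ((Fin d → ZMod 2) → ZMod 2)) := by
    ext f
    simp only [Set.mem_ofPred_eq, Finset.coe_image, Set.mem_image, Finset.mem_coe, Finset.mem_filter,
      Finset.mem_univ, true_and]
    constructor
    · rintro ⟨A, hA, rfl⟩
      exact ⟨A, hA, rfl⟩
    · rintro ⟨A, hA, rfl⟩
      exact ⟨A, hA, rfl⟩
  unfold Mm
  rw [h]
  refine (finrank_span_finset_le_card _).trans ?_
  exact Finset.card_image_le.trans (PLR_card d c)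

end Pool.Agent.GPR
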